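import Pool.Agent.Lib_helper9.SJ.LINKS
import Pool.Agent.Lib_helper51.FT_A

/-!
# Numbers of the superelliptic Jacobian: the centre
-/

set_option autoImplicit false

namespace Pool.Agent.SJ

open Finset

/-- The twisted sum. -/
noncomputable def ceT {q : ℕ} [NeZero q] (χ : DirichletCharacter ℂ q) (x : ZMod q) : ℂ :=
  ∑ s : (ZMod q)ˣ, χ (s : ZMod q) * ((((s : ZMod q) * x).val : ℕ) : ℂ)

theorem ce_fiber {p h q : ℕ} [NeZero q] (hq : q = p * h) (hh : 0 < h) (w : ZMod q)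
    (hw : p ∣ w.val) (f : ZMod q → ℂ) :
    ∑ z : ZMod q, (if (p : ZMod q) * z = w then f z else 0) =
      ∑ i ∈ range p, f ((w.val / p + i * h : ℕ) : ZMod q) := by
  have hp : 0 < p := by
    refine Nat.pos_of_ne_zero ?_
    rintro rfl
    rw [zero_mul] at hq
    exact NeZero.ne q hq
  rw [← Finset.sum_filter]
  have hwq : w.val < p * h := hq ▸ ZMod.val_lt w
  have hwp : w.val / p < h := Nat.div_lt_of_lt_mul hwq
  have hlt : ∀ i ∈ range p, w.val / p + i * h < q := by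
    intro i hi
    have h1 : (i + 1) * h ≤ p * h := Nat.mul_le_mul_right h (mem_range.mp hi)
    have h2 : (i + 1) * h = i * h + h := by ring
    omega
  have hleft : ∀ z ∈ univ.filter (fun z : ZMod q => (p : ZMod q) * z = w),
      ((w.val / p + z.val / h * h : ℕ) : ZMod q) = z := by
    intro z hz
    have hz' := (mem_filter.mp hz).2
    have h1 : w.val = p * (z.val % h) := by
      have h2 : (p : ZMod q) * z = ((p * z.val : ℕ) : ZMod q) := by
        rw [Nat.cast_mul, ZMod.natCast_zmod_val]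
      rw [← hz', h2, ZMod.val_natCast]
      have h3 : ∀ t : ℕ, p * t % q = p * (t % h) := fun t => by rw [hq, Nat.mul_mod_mul_left]
      exact h3 _
    rw [h1, Nat.mul_div_cancel_left _ hp, add_comm, Nat.div_add_mod', ZMod.natCast_zmod_val]
  refine Finset.sum_nbij' (i := fun z => z.val / h)
    (j := fun i => ((w.val / p + i * h : ℕ) : ZMod q)) ?_ ?_ ?_ ?_ ?_
  · intro z _
    rw [mem_range]
    apply Nat.div_lt_of_lt_mul
    rw [mul_comm, ← hq]
    exact ZMod.val_lt z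
  · intro i hi
    rw [mem_filter]
    refine ⟨mem_univ _, ?_⟩
    rw [← Nat.cast_mul, mul_add, Nat.mul_div_cancel' hw]
    have h1 : p * (i * h) = q * i := by rw [hq]; ring
    rw [h1, Nat.cast_add, Nat.cast_mul, ZMod.natCast_self, zero_mul, add_zero,
      ZMod.natCast_zmod_val]
  · exact hleft
  · intro i hi
    show ((w.val / p + i * h : ℕ) : ZMod q).val / h = i
    rw [ZMod.val_cast_of_lt (hlt i hi), Nat.add_mul_div_right _ _ hh, Nat.div_eq_of_lt hwp,
      zero_add]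
  · intro z hz
    rw [hleft z hz]

section

variable {p h q : ℕ} [NeZero q]

theorem ce_dvd_val (hq : q = p * h) (x : ZMod q) : p ∣ ((p : ZMod q) * x).val := by
  have h2 : (p : ZMod q) * x = ((p * x.val : ℕ) : ZMod q) := by
    rw [Nat.cast_mul, ZMod.natCast_zmod_val]
  rw [h2, ZMod.val_natCast]
  exact (Nat.dvd_mod_iff (Dvd.intro _ hq.symm)).mpr (Dvd.intro _ rfl)

theorem ce_sum_zero (χ : DirichletCharacter ℂ q) (hχ : χ.Odd) :
    ∑ s : (ZMod q)ˣ, χ (s : ZMod q) = 0 := by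
  have h1 : ∑ s : (ZMod q)ˣ, χ (s : ZMod q) = ∑ s : (ZMod q)ˣ, χ ((-s : (ZMod q)ˣ) : ZMod q) :=
    (Equiv.sum_comp (Equiv.neg (ZMod q)ˣ) (fun s : (ZMod q)ˣ => χ (s : ZMod q))).symm
  have h2 : ∀ s : (ZMod q)ˣ, χ ((-s : (ZMod q)ˣ) : ZMod q) = - χ (s : ZMod q) := by
    intro s
    rw [Units.val_neg, hχ.eval_neg]
  simp only [h2, Finset.sum_neg_distrib] at h1
  have h3 : (2 : ℂ) * ∑ s : (ZMod q)ˣ, χ (s : ZMod q) = 0 := by
    rw [two_mul]
    nth_rewrite 2 [h1]
    rw [add_neg_cancel]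
  exact (mul_eq_zero.mp h3).resolve_left two_ne_zero

theorem ce_val_eq (hq : q = p * h) (hh : 0 < h) (w : ZMod q) (hw : p ∣ w.val) :
    (w.val : ℂ) = (∑ z : ZMod q, (if (p : ZMod q) * z = w then (z.val : ℂ) else 0)) -
      h * ∑ i ∈ range p, (i : ℂ) := by
  rw [ce_fiber hq hh w hw (fun z => (z.val : ℂ))]
  have hp : 0 < p := by
    refine Nat.pos_of_ne_zero ?_
    rintro rfl
    rw [zero_mul] at hq
    exact NeZero.ne q hq
  have hwq : w.val < p * h := hq ▸ ZMod.val_lt w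
  have hwp : w.val / p < h := Nat.div_lt_of_lt_mul hwq
  have h1 : ∀ i ∈ range p, ((((w.val / p + i * h : ℕ) : ZMod q).val : ℕ) : ℂ) =
      ((w.val / p : ℕ) : ℂ) + (i : ℂ) * h := by
    intro i hi
    have h1 : (i + 1) * h ≤ p * h := Nat.mul_le_mul_right h (mem_range.mp hi)
    have h2 : (i + 1) * h = i * h + h := by ring
    have h3 : w.val / p + i * h < q := by omega
    rw [ZMod.val_cast_of_lt h3]
    push_cast
    ring
  rw [Finset.sum_congr rfl h1, Finset.sum_add_distrib, Finset.sum_const, card_range,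
    ← Finset.sum_mul, nsmul_eq_mul, ← Nat.cast_mul, Nat.mul_div_cancel' hw]
  ring

theorem ce_dist (hq : q = p * h) (hh : 0 < h) (χ : DirichletCharacter ℂ q) (hχ : χ.Odd)
    (x : ZMod q) : ceT χ ((p : ZMod q) * x) =
      ∑ z : ZMod q, (if (p : ZMod q) * z = (p : ZMod q) * x then ceT χ z else 0) := by
  unfold ceT
  have h1 : ∀ s : (ZMod q)ˣ, (((s : ZMod q) * ((p : ZMod q) * x)).val : ℂ) =
      (∑ z : ZMod q, (if (p : ZMod q) * z = (p : ZMod q) * x then
        ((((s : ZMod q) * z).val : ℕ) : ℂ) else 0)) - h * ∑ i ∈ range p, (i : ℂ) := by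
    intro s
    have e1 : (s : ZMod q) * ((p : ZMod q) * x) = (p : ZMod q) * ((s : ZMod q) * x) := by ring
    rw [ce_val_eq hq hh _ (by rw [e1]; exact ce_dvd_val hq _)]
    congr 1
    rw [← Equiv.sum_comp (Units.mulLeft s) (fun z : ZMod q =>
      (if (p : ZMod q) * z = (s : ZMod q) * ((p : ZMod q) * x) then (z.val : ℂ) else 0))]
    refine Finset.sum_congr rfl fun z _ => ?_
    rw [Units.mulLeft_apply]
    have e2 : (p : ZMod q) * ((s : ZMod q) * z) = (s : ZMod q) * ((p : ZMod q) * x) ↔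
        (p : ZMod q) * z = (p : ZMod q) * x := by
      have e3 : (p : ZMod q) * ((s : ZMod q) * z) = (s : ZMod q) * ((p : ZMod q) * z) := by ring
      rw [e3]
      exact ⟨fun h => s.isUnit.mul_left_cancel h, fun h => by rw [h]⟩
    simp only [e2]
  have h2 : ∀ s : (ZMod q)ˣ, χ (s : ZMod q) * (((s : ZMod q) * ((p : ZMod q) * x)).val : ℂ) =
      (∑ z : ZMod q, (if (p : ZMod q) * z = (p : ZMod q) * x then
        χ (s : ZMod q) * ((((s : ZMod q) * z).val : ℕ) : ℂ) else 0)) -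
        χ (s : ZMod q) * (h * ∑ i ∈ range p, (i : ℂ)) := by
    intro s
    rw [h1 s, mul_sub, Finset.mul_sum]
    congr 1
    refine Finset.sum_congr rfl fun z _ => ?_
    split_ifs
    · rfl
    · rw [mul_zero]
  rw [Finset.sum_congr rfl (fun s _ => h2 s), Finset.sum_sub_distrib, ← Finset.sum_mul,
    ce_sum_zero χ hχ, zero_mul, sub_zero, Finset.sum_comm]
  refine Finset.sum_congr rfl fun z _ => ?_
  split_ifs with hz
  · rfl
  · exact Finset.sum_const_zero

theorem ce_unit (χ : DirichletCharacter ℂ q) (u : (ZMod q)ˣ) :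
    ceT χ (u : ZMod q) = χ ((u⁻¹ : (ZMod q)ˣ) : ZMod q) * ceT χ 1 := by
  unfold ceT
  rw [Finset.mul_sum, ← Equiv.sum_comp (Equiv.mulRight u)
    (fun s : (ZMod q)ˣ => χ ((u⁻¹ : (ZMod q)ˣ) : ZMod q) *
      (χ (s : ZMod q) * ((((s : ZMod q) * 1).val : ℕ) : ℂ)))]
  refine Finset.sum_congr rfl fun s _ => ?_
  have e1 : χ ((u⁻¹ : (ZMod q)ˣ) : ZMod q) * χ (u : ZMod q) = 1 := by
    rw [← map_mul, Units.inv_mul, map_one]
  rw [Equiv.coe_mulRight, Units.val_mul, mul_one, map_mul]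
  calc χ (s : ZMod q) * ((((s : ZMod q) * (u : ZMod q)).val : ℕ) : ℂ)
      = (χ ((u⁻¹ : (ZMod q)ˣ) : ZMod q) * χ (u : ZMod q)) *
        (χ (s : ZMod q) * ((((s : ZMod q) * (u : ZMod q)).val : ℕ) : ℂ)) := by rw [e1, one_mul]
    _ = _ := by ring

theorem ce_bound {k : ℕ} (hp : p.Prime) (hqk : q = p ^ k) (hk : k ≠ 0)
    (χ : DirichletCharacter ℂ q) (hχ : χ.Odd) :
    ∀ (a : ℕ) (x : ZMod q), ¬ p ^ (a + 1) ∣ x.val → ‖ceT χ x‖ ≤ (p : ℝ) ^ a * ‖ceT χ 1‖ := by
  have hqh : q = p * p ^ (k - 1) := by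
    rw [hqk, ← pow_succ', Nat.sub_add_cancel (Nat.one_le_iff_ne_zero.mpr hk)]
  have hh : 0 < p ^ (k - 1) := pow_pos hp.pos _
  intro a
  induction a with
  | zero =>
    intro x hx
    rw [zero_add, pow_one] at hx
    have hcop : x.val.Coprime q := by
      have h1 := Nat.Coprime.pow_right k ((Nat.Prime.coprime_iff_not_dvd hp).mpr hx).symm
      rwa [← hqk] at h1
    have e1 : x = (ZMod.unitOfCoprime x.val hcop : ZMod q) := by
      rw [ZMod.coe_unitOfCoprime, ZMod.natCast_zmod_val]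
    rw [e1, ce_unit, norm_mul, pow_zero]
    exact mul_le_mul_of_nonneg_right (DirichletCharacter.norm_le_one χ _) (norm_nonneg _)
  | succ a ih =>
    intro x hx
    have hp1 : (1 : ℝ) ≤ p := by exact_mod_cast hp.one_lt.le
    by_cases hx1 : p ^ (a + 1) ∣ x.val
    · have hpx : p ∣ x.val := (dvd_pow_self p (Nat.succ_ne_zero a)).trans hx1
      have hxe : x = (p : ZMod q) * ((x.val / p : ℕ) : ZMod q) := by
        rw [← Nat.cast_mul, Nat.mul_div_cancel' hpx, ZMod.natCast_zmod_val]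
      have hx0 : x.val ≠ 0 := by
        intro h0
        rw [h0] at hx
        exact hx (dvd_zero _)
      -- a + 1 < k
      have hak : a + 1 < k := by
        have h1 := Nat.le_of_dvd (Nat.pos_of_ne_zero hx0) hx1
        have h2 := ZMod.val_lt x
        have h3 : p ^ (a + 1) < p ^ k := by
          calc p ^ (a + 1) ≤ x.val := h1
            _ < q := h2
            _ = p ^ k := hqk
        exact (Nat.pow_lt_pow_iff_right hp.one_lt).mp h3
      have hdist := ce_dist hqh hh χ hχ ((x.val / p : ℕ) : ZMod q)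
      rw [← hxe] at hdist
      have hz : ∀ z : ZMod q, (p : ZMod q) * z = x → ‖ceT χ z‖ ≤ (p : ℝ) ^ a * ‖ceT χ 1‖ := by
        intro z hz
        refine ih z fun hd => hx ?_
        have h2 : (p : ZMod q) * z = ((p * z.val : ℕ) : ZMod q) := by
          rw [Nat.cast_mul, ZMod.natCast_zmod_val]
        rw [← hz, h2, ZMod.val_natCast]
        refine (Nat.dvd_mod_iff ?_).mpr ?_
        · rw [hqk]
          exact pow_dvd_pow p (by omega)
        · rw [pow_succ']
          exact Nat.mul_dvd_mul_left p hd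
      have hfib := ce_fiber hqh hh x hpx (fun z => if (p : ZMod q) * z = x then ceT χ z else 0)
      have e2 : ∑ z : ZMod q, (if (p : ZMod q) * z = x then
          (if (p : ZMod q) * z = x then ceT χ z else 0) else 0) =
          ∑ z : ZMod q, (if (p : ZMod q) * z = x then ceT χ z else 0) :=
        Finset.sum_congr rfl fun z _ => by split_ifs <;> rfl
      rw [e2, ← hdist] at hfib
      rw [hfib]
      calc ‖∑ i ∈ range p, _‖ ≤ ∑ i ∈ range p, (p : ℝ) ^ a * ‖ceT χ 1‖ := by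
            refine norm_sum_le_of_le _ fun i _ => ?_
            split_ifs with hi
            · exact hz _ hi
            · rw [norm_zero]
              positivity
        _ = (p : ℝ) ^ (a + 1) * ‖ceT χ 1‖ := by
            rw [Finset.sum_const, card_range, nsmul_eq_mul, pow_succ']
            ring
    · refine (ih x hx1).trans ?_
      refine mul_le_mul_of_nonneg_right ?_ (norm_nonneg _)
      exact pow_le_pow_right₀ hp1 (Nat.le_succ a)

theorem ce_T0 (χ : DirichletCharacter ℂ q) : ceT χ 0 = 0 := by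
  unfold ceT
  refine Finset.sum_eq_zero fun s _ => ?_
  rw [mul_zero, ZMod.val_zero, Nat.cast_zero, mul_zero]

theorem ce_T1 {k : ℕ} (hp : p.Prime) (hqk : q = p ^ k) (hk : k ≠ 0)
    (χ : DirichletCharacter ℂ q) (hχ : χ.Odd) : ceT χ 1 ≠ 0 := by
  obtain ⟨x, hx⟩ := Pool.Agent.FT.exists_sum_ne_zero q χ hχ
  change ceT χ x ≠ 0 at hx
  intro h0
  apply hx
  have hx0 : x.val ≠ 0 := by
    intro h
    rw [ZMod.val_eq_zero] at h
    rw [h, ce_T0] at hx
    exact hx rfl
  have h1 := ce_bound hp hqk hk χ hχ x.val x (fun hd => by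
    have h2 := Nat.le_of_dvd (Nat.pos_of_ne_zero hx0) hd
    have h3 := Nat.lt_pow_self hp.one_lt (n := x.val + 1)
    omega)
  rw [h0, norm_zero, mul_zero] at h1
  exact norm_le_zero_iff.mp h1

theorem ce_main {k n : ℕ} (hp : p.Prime) (hqk : q = p ^ k) (hk : k ≠ 0) (hn : 1 ≤ n)
    (hnq : n ∣ q → n = q ∨ q = 2 * n) (χ : DirichletCharacter ℂ q) (hχ : χ.Odd) :
    (n : ℂ) * ceT χ 1 - ceT χ (n : ZMod q) ≠ 0 := by
  intro h0
  have hT1 := ce_T1 hp hqk hk χ hχ
  rw [sub_eq_zero] at h0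
  by_cases hz : (n : ZMod q) = 0
  · rw [hz, ce_T0, mul_eq_zero] at h0
    rcases h0 with h0 | h0
    · rw [Nat.cast_eq_zero] at h0
      omega
    · exact hT1 h0
  · have hm0 : (n : ZMod q).val ≠ 0 := fun h => hz ((ZMod.val_eq_zero _).mp h)
    obtain ⟨a, m', hm', hma⟩ := Nat.exists_eq_pow_mul_and_not_dvd hm0 p hp.one_lt.ne'
    have h1 := ce_bound hp hqk hk χ hχ a (n : ZMod q) (by
      rw [hma, pow_succ]
      intro hd
      exact hm' (Nat.dvd_of_mul_dvd_mul_left (pow_pos hp.pos a) hd))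
    rw [← h0, norm_mul, Complex.norm_natCast] at h1
    have h2 : (n : ℝ) ≤ (p : ℝ) ^ a := le_of_mul_le_mul_right h1 (norm_pos_iff.mpr hT1)
    have h3 : n ≤ p ^ a := by exact_mod_cast h2
    have hd1 : p ^ a ∣ (n : ZMod q).val := by rw [hma]; exact Dvd.intro _ rfl
    have hle : p ^ a ≤ (n : ZMod q).val := Nat.le_of_dvd (Nat.pos_of_ne_zero hm0) hd1
    have hlt := ZMod.val_lt (n : ZMod q)
    have hak : a < k := by
      have h3 : p ^ a < p ^ k := by
        calc p ^ a ≤ (n : ZMod q).val := hle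
          _ < q := hlt
          _ = p ^ k := hqk
      exact (Nat.pow_lt_pow_iff_right hp.one_lt).mp h3
    have hdq : p ^ a ∣ q := by rw [hqk]; exact pow_dvd_pow p hak.le
    have hdn : p ^ a ∣ n := by
      rw [ZMod.val_natCast] at hd1
      exact (Nat.dvd_mod_iff hdq).mp hd1
    have hne : n = p ^ a := le_antisymm h3 (Nat.le_of_dvd (by omega) hdn)
    rcases hnq (by rw [hne]; exact hdq) with h4 | h4
    · omega
    · have h6 : ∀ s : (ZMod q)ˣ, (s : ZMod q) * (n : ZMod q) = (n : ZMod q) := by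
        intro s
        have h7 : Nat.Coprime (s : ZMod q).val q := ZMod.val_coe_unit_coprime s
        have h8 : ¬ 2 ∣ (s : ZMod q).val := by
          intro h
          have h9 := Nat.dvd_gcd h (⟨n, h4⟩ : 2 ∣ q)
          rw [h7] at h9
          omega
        obtain ⟨m, hm⟩ : ∃ m, (s : ZMod q).val = 2 * m + 1 := ⟨(s : ZMod q).val / 2, by omega⟩
        have h9 : ((s : ZMod q).val) * n = m * q + n := by
          rw [hm, h4]; ring
        calc (s : ZMod q) * (n : ZMod q) = (((s : ZMod q).val * n : ℕ) : ZMod q) := by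
              rw [Nat.cast_mul, ZMod.natCast_zmod_val]
          _ = (n : ZMod q) := by
              rw [h9, Nat.cast_add, Nat.cast_mul, ZMod.natCast_self, mul_zero, zero_add]
      have h5 : ceT χ (n : ZMod q) = 0 := by
        unfold ceT
        simp only [h6]
        rw [← Finset.sum_mul, ce_sum_zero χ hχ, zero_mul]
      rw [h5, mul_eq_zero] at h0
      rcases h0 with h0 | h0
      · rw [Nat.cast_eq_zero] at h0
        omega
      · exact hT1 h0

theorem ce_sig {k n : ℕ} (hp : p.Prime) (hqk : q = p ^ k) (hk : k ≠ 0) (hn : 1 ≤ n)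
    (hnq : n ∣ q → n = q ∨ q = 2 * n) (χ : DirichletCharacter ℂ q) (hχ : χ.Odd) :
    ∑ s : (ZMod q)ˣ, χ (s : ZMod q) * (sig n q (s : ZMod q) : ℂ) ≠ 0 := by
  intro h0
  apply ce_main hp hqk hk hn hnq χ hχ
  have hq2 : 2 ≤ q := by
    rw [hqk]
    calc 2 ≤ p := hp.two_le
      _ = p ^ 1 := (pow_one p).symm
      _ ≤ p ^ k := Nat.pow_le_pow_right hp.pos (Nat.one_le_iff_ne_zero.mpr hk)
  have h1 : ∀ s : (ZMod q)ˣ, (q : ℂ) * (sig n q (s : ZMod q) : ℂ) =
      (n : ℂ) * ((((s : ZMod q) * 1).val : ℕ) : ℂ) -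
        ((((s : ZMod q) * (n : ZMod q)).val : ℕ) : ℂ) - (if q ∣ n then (q : ℂ) else 0) := by
    intro s
    have hv0 := lk_unit_val_pos hq2 s
    rw [mul_one]
    have e1 : (s : ZMod q) * (n : ZMod q) = ((n * (s : ZMod q).val : ℕ) : ZMod q) := by
      rw [Nat.cast_mul, ZMod.natCast_zmod_val, mul_comm]
    rw [e1, ZMod.val_natCast]
    set v := (s : ZMod q).val with hv
    have e2 := Nat.div_add_mod (n * v) q
    have e3 : (q : ℂ) * ((n * v / q : ℕ) : ℂ) + (((n * v) % q : ℕ) : ℂ) = (n : ℂ) * v := by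
      exact_mod_cast e2
    unfold sig
    rw [← hv]
    by_cases hqn : q ∣ n
    · rw [if_pos hqn, if_pos hqn]
      have e4 : 1 ≤ n * v / q := by
        rw [Nat.one_le_div_iff (by omega)]
        exact Nat.le_of_dvd (Nat.mul_pos (by omega) hv0) (Dvd.dvd.mul_right hqn v)
      rw [Nat.cast_sub e4, Nat.cast_one, ← e3]
      ring
    · rw [if_neg hqn, if_neg hqn, ← e3]
      ring
  have h2 : (q : ℂ) * ∑ s : (ZMod q)ˣ, χ (s : ZMod q) * (sig n q (s : ZMod q) : ℂ) =
      (n : ℂ) * ceT χ 1 - ceT χ (n : ZMod q) := by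
    unfold ceT
    have h3 : ∀ s : (ZMod q)ˣ, (q : ℂ) * (χ (s : ZMod q) * (sig n q (s : ZMod q) : ℂ)) =
        (n : ℂ) * (χ (s : ZMod q) * ((((s : ZMod q) * 1).val : ℕ) : ℂ)) -
        χ (s : ZMod q) * ((((s : ZMod q) * (n : ZMod q)).val : ℕ) : ℂ) -
        χ (s : ZMod q) * (if q ∣ n then (q : ℂ) else 0) := by
      intro s
      rw [mul_left_comm, h1 s]
      ring
    rw [Finset.mul_sum, Finset.sum_congr rfl (fun s _ => h3 s), Finset.sum_sub_distrib,
      Finset.sum_sub_distrib, ← Finset.sum_mul, ce_sum_zero χ hχ, zero_mul, sub_zero,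
      ← Finset.mul_sum]
  rw [← h2, h0, mul_zero]

end

/-- The integral matrix. -/
noncomputable def ceN (n q : ℕ) : Matrix (ZMod q)ˣ (ZMod q)ˣ ℤ :=
  Matrix.of fun τ x => (sig n q ((τ * x : (ZMod q)ˣ) : ZMod q) : ℤ) -
    (sig n q ((-(τ * x) : (ZMod q)ˣ) : ZMod q) : ℤ) + (if τ * x = 1 then 1 else 0) +
    (if -(τ * x) = 1 then 1 else 0)

theorem ce_det {p k n q : ℕ} [NeZero q] (hp : p.Prime) (hq : q = p ^ k) (hk : k ≠ 0)
    (hn : 1 ≤ n) (hnq : n ∣ q → n = q ∨ q = 2 * n) : (ceN n q).det ≠ 0 := by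
  intro hdet
  have hdetC : ((ceN n q).map (Int.castRingHom ℂ)).det = 0 := by
    have := RingHom.map_det (Int.castRingHom ℂ) (ceN n q)
    rw [hdet, map_zero] at this
    exact this.symm
  obtain ⟨v, hv0, hv⟩ := Matrix.exists_mulVec_eq_zero_iff.mpr hdetC
  have E : ∀ τ : (ZMod q)ˣ, ∑ x : (ZMod q)ˣ,
      (((sig n q ((τ * x : (ZMod q)ˣ) : ZMod q) : ℂ) -
        (sig n q ((-(τ * x) : (ZMod q)ˣ) : ZMod q) : ℂ)) * v x +
      ((if τ * x = 1 then v x else 0) + (if -(τ * x) = 1 then v x else 0))) = 0 := by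
    intro τ
    have h1 := congrFun hv τ
    rw [Pi.zero_apply] at h1
    refine Eq.trans ?_ h1
    rw [Matrix.mulVec, dotProduct]
    refine Finset.sum_congr rfl fun x _ => ?_
    rw [Matrix.map_apply, ceN, Matrix.of_apply]
    clear h1
    split_ifs <;> simp <;> ring
  have hd1 : ∀ τ : (ZMod q)ˣ, ∑ x : (ZMod q)ˣ, (if τ * x = 1 then v x else 0) = v τ⁻¹ := by
    intro τ
    rw [Finset.sum_eq_single τ⁻¹]
    · rw [mul_inv_cancel, if_pos rfl]
    · intro b _ hb
      rw [if_neg]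
      intro h
      exact hb (eq_inv_of_mul_eq_one_right h)
    · intro h
      exact absurd (Finset.mem_univ _) h
  have hd2 : ∀ τ : (ZMod q)ˣ, ∑ x : (ZMod q)ˣ, (if -(τ * x) = 1 then v x else 0) = v (-τ⁻¹) := by
    intro τ
    rw [Finset.sum_eq_single (-τ⁻¹)]
    · rw [mul_neg, mul_inv_cancel, neg_neg, if_pos rfl]
    · intro b _ hb
      rw [if_neg]
      intro h
      apply hb
      rw [← neg_mul] at h
      have h2 := eq_inv_of_mul_eq_one_right h
      rw [h2, inv_neg]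
    · intro h
      exact absurd (Finset.mem_univ _) h
  -- v is odd
  have hodd : ∀ τ : (ZMod q)ˣ, v (-τ) = - v τ := by
    intro τ
    have h1 := E τ⁻¹
    have h2 := E (-τ⁻¹)
    rw [Finset.sum_add_distrib, Finset.sum_add_distrib, hd1, hd2] at h1 h2
    rw [inv_inv] at h1
    rw [inv_neg, inv_inv, neg_neg] at h2
    have h3 : ∑ x : (ZMod q)ˣ, ((sig n q ((-τ⁻¹ * x : (ZMod q)ˣ) : ZMod q) : ℂ) -
        (sig n q ((-(-τ⁻¹ * x) : (ZMod q)ˣ) : ZMod q) : ℂ)) * v x =
        - ∑ x : (ZMod q)ˣ, ((sig n q ((τ⁻¹ * x : (ZMod q)ˣ) : ZMod q) : ℂ) -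
        (sig n q ((-(τ⁻¹ * x) : (ZMod q)ˣ) : ZMod q) : ℂ)) * v x := by
      rw [← Finset.sum_neg_distrib]
      refine Finset.sum_congr rfl fun x _ => ?_
      rw [neg_mul, neg_neg]
      ring
    rw [h3] at h2
    linear_combination (1 / 2 : ℂ) * h1 + (1 / 2 : ℂ) * h2
  have hE2 : ∀ τ : (ZMod q)ˣ, ∑ x : (ZMod q)ˣ,
      ((sig n q ((τ * x : (ZMod q)ˣ) : ZMod q) : ℂ) -
        (sig n q ((-(τ * x) : (ZMod q)ˣ) : ZMod q) : ℂ)) * v x = 0 := by
    intro τ
    have h1 := E τ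
    rw [Finset.sum_add_distrib, Finset.sum_add_distrib, hd1, hd2, hodd, add_neg_cancel,
      add_zero] at h1
    exact h1
  -- all Fourier coefficients vanish
  have hF : ∀ χ : DirichletCharacter ℂ q, ∑ x : (ZMod q)ˣ,
      v x * χ ((x⁻¹ : (ZMod q)ˣ) : ZMod q) = 0 := by
    intro χ
    rcases χ.even_or_odd with hχ | hχ
    · have h1 : ∑ x : (ZMod q)ˣ, v x * χ ((x⁻¹ : (ZMod q)ˣ) : ZMod q) =
          ∑ x : (ZMod q)ˣ, v (-x) * χ (((-x)⁻¹ : (ZMod q)ˣ) : ZMod q) :=
        (Equiv.sum_comp (Equiv.neg (ZMod q)ˣ)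
          (fun x : (ZMod q)ˣ => v x * χ ((x⁻¹ : (ZMod q)ˣ) : ZMod q))).symm
      have h2 : ∀ x : (ZMod q)ˣ, v (-x) * χ (((-x)⁻¹ : (ZMod q)ˣ) : ZMod q) =
          - (v x * χ ((x⁻¹ : (ZMod q)ˣ) : ZMod q)) := by
        intro x
        rw [hodd, inv_neg, Units.val_neg, hχ.eval_neg]
        ring
      simp only [h2, Finset.sum_neg_distrib] at h1
      have h3 : (2 : ℂ) * ∑ x : (ZMod q)ˣ, v x * χ ((x⁻¹ : (ZMod q)ˣ) : ZMod q) = 0 := by
        rw [two_mul]
        nth_rewrite 2 [h1]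
        rw [add_neg_cancel]
      exact (mul_eq_zero.mp h3).resolve_left two_ne_zero
    · have h1 : ∑ τ : (ZMod q)ˣ, χ (τ : ZMod q) * ∑ x : (ZMod q)ˣ,
          ((sig n q ((τ * x : (ZMod q)ˣ) : ZMod q) : ℂ) -
            (sig n q ((-(τ * x) : (ZMod q)ˣ) : ZMod q) : ℂ)) * v x = 0 :=
        Finset.sum_eq_zero fun τ _ => by rw [hE2, mul_zero]
      have h2 : ∀ x : (ZMod q)ˣ, ∑ τ : (ZMod q)ˣ, χ (τ : ZMod q) *
          ((sig n q ((τ * x : (ZMod q)ˣ) : ZMod q) : ℂ) -
            (sig n q ((-(τ * x) : (ZMod q)ˣ) : ZMod q) : ℂ)) =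
          χ ((x⁻¹ : (ZMod q)ˣ) : ZMod q) *
            (2 * ∑ s : (ZMod q)ˣ, χ (s : ZMod q) * (sig n q (s : ZMod q) : ℂ)) := by
        intro x
        have e1 : ∑ s : (ZMod q)ˣ, χ (s : ZMod q) *
            (sig n q ((-s : (ZMod q)ˣ) : ZMod q) : ℂ) =
            - ∑ s : (ZMod q)ˣ, χ (s : ZMod q) * (sig n q (s : ZMod q) : ℂ) := by
          rw [← Finset.sum_neg_distrib, ← Equiv.sum_comp (Equiv.neg (ZMod q)ˣ)
            (fun s : (ZMod q)ˣ => χ (s : ZMod q) *
            (sig n q ((-s : (ZMod q)ˣ) : ZMod q) : ℂ))]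
          refine Finset.sum_congr rfl fun s _ => ?_
          rw [Equiv.neg_apply, neg_neg, Units.val_neg, hχ.eval_neg]
          ring
        have e2 : 2 * ∑ s : (ZMod q)ˣ, χ (s : ZMod q) * (sig n q (s : ZMod q) : ℂ) =
            ∑ s : (ZMod q)ˣ, χ (s : ZMod q) * ((sig n q (s : ZMod q) : ℂ) -
              (sig n q ((-s : (ZMod q)ˣ) : ZMod q) : ℂ)) := by
          simp only [mul_sub, Finset.sum_sub_distrib]
          rw [e1]
          ring
        rw [e2, Finset.mul_sum, ← Equiv.sum_comp (Equiv.mulRight x)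
          (fun s : (ZMod q)ˣ => χ ((x⁻¹ : (ZMod q)ˣ) : ZMod q) *
            (χ (s : ZMod q) * ((sig n q (s : ZMod q) : ℂ) -
              (sig n q ((-s : (ZMod q)ˣ) : ZMod q) : ℂ))))]
        refine Finset.sum_congr rfl fun s _ => ?_
        rw [Equiv.coe_mulRight, ← mul_assoc, ← map_mul, ← Units.val_mul, mul_comm x⁻¹,
          mul_assoc s, mul_inv_cancel, mul_one]
      have h3 : ∑ x : (ZMod q)ˣ, v x * (χ ((x⁻¹ : (ZMod q)ˣ) : ZMod q) *
            (2 * ∑ s : (ZMod q)ˣ, χ (s : ZMod q) * (sig n q (s : ZMod q) : ℂ))) = 0 := by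
        rw [← h1, Finset.sum_congr rfl (fun x _ => by rw [← h2 x, Finset.mul_sum]),
          Finset.sum_comm]
        refine Finset.sum_congr rfl fun τ _ => ?_
        rw [Finset.mul_sum]
        refine Finset.sum_congr rfl fun x _ => ?_
        ring
      have h4 : (∑ x : (ZMod q)ˣ, v x * χ ((x⁻¹ : (ZMod q)ˣ) : ZMod q)) *
            (2 * ∑ s : (ZMod q)ˣ, χ (s : ZMod q) * (sig n q (s : ZMod q) : ℂ)) = 0 := by
        rw [← h3, Finset.sum_mul]
        refine Finset.sum_congr rfl fun x _ => ?_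
        ring
      refine (mul_eq_zero.mp h4).resolve_right (mul_ne_zero two_ne_zero ?_)
      exact ce_sig hp hq hk hn hnq χ hχ
  apply hv0
  ext y
  rw [Pi.zero_apply]
  have h1 : ∑ χ : DirichletCharacter ℂ q, (∑ x : (ZMod q)ˣ,
      v x * χ ((x⁻¹ : (ZMod q)ˣ) : ZMod q)) * χ (y : ZMod q) = 0 :=
    Finset.sum_eq_zero fun χ _ => by rw [hF, zero_mul]
  simp only [Finset.sum_mul] at h1
  rw [Finset.sum_comm] at h1
  have h2 : ∀ x : (ZMod q)ˣ, ∑ χ : DirichletCharacter ℂ q,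
      v x * χ ((x⁻¹ : (ZMod q)ˣ) : ZMod q) * χ (y : ZMod q) =
      if x = y then v x * (q.totient : ℂ) else 0 := by
    intro x
    have e1 := DirichletCharacter.sum_char_inv_mul_char_eq ℂ x.isUnit (y : ZMod q)
    simp only [mul_assoc, ← Finset.mul_sum]
    rw [← ZMod.inv_coe_unit, e1]
    by_cases hxy : x = y
    · rw [if_pos hxy, if_pos (by rw [hxy])]
    · rw [if_neg hxy, if_neg (fun h => hxy (Units.ext h)), mul_zero]
  rw [Finset.sum_congr rfl (fun x _ => h2 x), Finset.sum_ite_eq' Finset.univ y,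
    if_pos (Finset.mem_univ _)] at h1
  refine (mul_eq_zero.mp h1).resolve_right ?_
  exact Nat.cast_ne_zero.mpr (Nat.totient_pos.mpr (NeZero.pos q)).ne'

/-- CENTRE -/
theorem centre_pr {K : Type*} [Field K] [CharZero K] {p k n : ℕ} [Fact p.Prime] (hq : 3 ≤ p ^ k)
    (hn : 5 ≤ n) (hnq : n ∣ p ^ k → n = p ^ k ∨ p ^ k = 2 * n) (C : (ZMod (p ^ k))ˣ → K)
    (hodd : ∀ x, C (-x) = - C x)
    (h : ∀ τ : (ZMod (p ^ k))ˣ, ∑ x, C x * (sig n (p ^ k) ((τ * x : (ZMod (p ^ k))ˣ) : ZMod (p ^ k)) : K) = 0) :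
    C = 0 := by
  have hk : k ≠ 0 := by rintro rfl; rw [pow_zero] at hq; omega
  have hz : NeZero (p ^ k) := ⟨by omega⟩
  have hdet := ce_det (n := n) (Fact.out : p.Prime) rfl hk (by omega) hnq
  by_contra hC
  apply hdet
  have hdetK : ((ceN n (p ^ k)).map (Int.castRingHom K)).det = 0 := by
    refine Matrix.exists_mulVec_eq_zero_iff.mp ⟨C, hC, ?_⟩
    ext τ
    rw [Pi.zero_apply, Matrix.mulVec, dotProduct]
    have h1 : ∀ x : (ZMod (p ^ k))ˣ, (ceN n (p ^ k)).map (Int.castRingHom K) τ x * C x =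
        C x * (sig n (p ^ k) ((τ * x : (ZMod (p ^ k))ˣ) : ZMod (p ^ k)) : K) -
        C x * (sig n (p ^ k) (((-τ) * x : (ZMod (p ^ k))ˣ) : ZMod (p ^ k)) : K) +
        ((if τ * x = 1 then C x else 0) + (if -(τ * x) = 1 then C x else 0)) := by
      intro x
      rw [Matrix.map_apply, ceN, Matrix.of_apply, neg_mul]
      split_ifs <;> simp <;> ring
    rw [Finset.sum_congr rfl (fun x _ => h1 x), Finset.sum_add_distrib, Finset.sum_sub_distrib,
      h, h, sub_zero, zero_add, Finset.sum_add_distrib]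
    have hd1 : ∑ x : (ZMod (p ^ k))ˣ, (if τ * x = 1 then C x else 0) = C τ⁻¹ := by
      rw [Finset.sum_eq_single τ⁻¹]
      · rw [mul_inv_cancel, if_pos rfl]
      · intro b _ hb
        rw [if_neg]
        intro h
        exact hb (eq_inv_of_mul_eq_one_right h)
      · intro h
        exact absurd (Finset.mem_univ _) h
    have hd2 : ∑ x : (ZMod (p ^ k))ˣ, (if -(τ * x) = 1 then C x else 0) = C (-τ⁻¹) := by
      rw [Finset.sum_eq_single (-τ⁻¹)]
      · rw [mul_neg, mul_inv_cancel, neg_neg, if_pos rfl]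
      · intro b _ hb
        rw [if_neg]
        intro h
        apply hb
        rw [← neg_mul] at h
        have h2 := eq_inv_of_mul_eq_one_right h
        rw [h2, inv_neg]
      · intro h
        exact absurd (Finset.mem_univ _) h
    rw [hd1, hd2, hodd, add_neg_cancel]
  have := RingHom.map_det (Int.castRingHom K) (ceN n (p ^ k))
  rw [RingHom.mapMatrix_apply, hdetK, eq_intCast, Int.cast_eq_zero] at this
  exact this

end Pool.Agent.SJ
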