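import Pool.Agent.Lib_helper54.SJ.Defs

/-!
# Numbers of the superelliptic Jacobian: signs, links
-/

set_option autoImplicit false

namespace Pool.Agent.SJ

theorem lk_sig_cast {n q v : ℕ} (hv : v < q) :
    sig n q (v : ZMod q) = if q ∣ n then n * v / q - 1 else n * v / q := by
  unfold sig
  rw [ZMod.val_cast_of_lt hv]

theorem lk_neg_cast {q v : ℕ} (hv : v < q) : (-(v : ZMod q)) = ((q - v : ℕ) : ZMod q) := by
  rw [Nat.cast_sub hv.le, ZMod.natCast_self, zero_sub]

theorem lk_div_sum {n q v : ℕ} (hv0 : 0 < v) (hv : v < q) (h : ¬ q ∣ n * v) :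
    n * v / q + n * (q - v) / q + 1 = n := by
  have hq : 0 < q := by omega
  have h1 := Nat.div_add_mod (n * v) q
  have h2 := Nat.div_add_mod (n * (q - v)) q
  have h3 : n * v + n * (q - v) = n * q := by rw [← Nat.mul_add, Nat.add_sub_cancel' hv.le]
  have h4 : 0 < (n * v) % q := Nat.pos_of_ne_zero fun h0 => h (Nat.dvd_of_mod_eq_zero h0)
  have h5 := Nat.mod_lt (n * v) hq
  have h6 := Nat.mod_lt (n * (q - v)) hq
  set a := n * v / q
  set b := n * (q - v) / q
  set r := (n * v) % q
  set r' := (n * (q - v)) % q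
  have h7 : q * (a + b) + (r + r') = n * q := by rw [mul_add]; omega
  have h8 : r + r' < 2 * q := by omega
  have h9 : 0 < r + r' := by omega
  have h10 : q ∣ r + r' := by
    have : r + r' = n * q - q * (a + b) := by omega
    rw [this]
    exact Nat.dvd_sub (Dvd.intro_left n rfl) (Dvd.intro _ rfl)
  obtain ⟨c, hc⟩ := h10
  have hc1 : c = 1 := by
    have hc0 : c ≠ 0 := by rintro rfl; omega
    have hc2 : c < 2 := by
      by_contra hcon
      have : q * 2 ≤ q * c := Nat.mul_le_mul_left q (by omega)
      omega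
    omega
  subst hc1
  have h11 : q * (a + b + 1) = q * n := by rw [mul_add, mul_one, mul_comm q n, ← h7, hc, mul_one]
  exact Nat.eq_of_mul_eq_mul_left hq h11

theorem lk_unit_val_pos {q : ℕ} (hq : 2 ≤ q) (u : (ZMod q)ˣ) : 0 < (u : ZMod q).val := by
  have : Fact (1 < q) := ⟨by omega⟩
  refine Nat.pos_of_ne_zero fun h => ?_
  have hz : NeZero q := ⟨by omega⟩
  rw [ZMod.val_eq_zero] at h
  exact u.ne_zero h

/-- NUM0 -/
theorem sig_add_neg_pr {n q : ℕ} (hq : 3 ≤ q) (hn : 1 ≤ n) (u : (ZMod q)ˣ) :
    sig n q (u : ZMod q) + sig n q (-(u : ZMod q)) = dm n q := by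
  have hz : NeZero q := ⟨by omega⟩
  have hv0 := lk_unit_val_pos (by omega) u
  have hv := ZMod.val_lt (u : ZMod q)
  have hcop := ZMod.val_coe_unit_coprime u
  set v := (u : ZMod q).val with hvdef
  have hu : (u : ZMod q) = (v : ZMod q) := (ZMod.natCast_zmod_val (u : ZMod q)).symm
  rw [hu, lk_neg_cast hv, lk_sig_cast hv, lk_sig_cast (by omega)]
  unfold dm
  by_cases hqn : q ∣ n
  · rw [if_pos hqn, if_pos hqn, if_pos hqn]
    obtain ⟨c, rfl⟩ := hqn
    have h1 : q * c * v / q = c * v := by
      rw [mul_assoc, Nat.mul_div_cancel_left _ (by omega)]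
    have h2 : q * c * (q - v) / q = c * (q - v) := by
      rw [mul_assoc, Nat.mul_div_cancel_left _ (by omega)]
    rw [h1, h2]
    have hc : 0 < c := Nat.pos_of_ne_zero (by rintro rfl; omega)
    have h3 : c * v + c * (q - v) = q * c := by
      rw [← Nat.mul_add, Nat.add_sub_cancel' hv.le, mul_comm]
    have h4 : 0 < c * v := Nat.mul_pos hc hv0
    have h5 : 0 < c * (q - v) := Nat.mul_pos hc (by omega)
    omega
  · rw [if_neg hqn, if_neg hqn, if_neg hqn]
    have h : ¬ q ∣ n * v := fun h => hqn (hcop.symm.dvd_of_dvd_mul_right h)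
    have := lk_div_sum hv0 hv h
    omega

/-- The smaller of the two multiplicities. -/
theorem lk_min {n q v : ℕ} (hv0 : 0 < v) (hv : 2 * v ≤ q) :
    min (sig n q (v : ZMod q)) (sig n q (-(v : ZMod q))) =
      if q ∣ n then n * v / q - 1 else n * v / q := by
  have hvq : v < q := by omega
  rw [lk_neg_cast hvq, lk_sig_cast hvq, lk_sig_cast (by omega)]
  have hle : n * v / q ≤ n * (q - v) / q :=
    Nat.div_le_div_right (Nat.mul_le_mul_left n (by omega))
  by_cases hqn : q ∣ n
  · simp only [if_pos hqn]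
    omega
  · simp only [if_neg hqn]
    omega

theorem lk_min_neg {n q : ℕ} (y : ZMod q) :
    min (sig n q (-y)) (sig n q (-(-y))) = min (sig n q y) (sig n q (-y)) := by
  rw [neg_neg, min_comm]

theorem lk_min' {n q v : ℕ} (hvq : v < q) (hv : q ≤ 2 * v) :
    min (sig n q (v : ZMod q)) (sig n q (-(v : ZMod q))) =
      if q ∣ n then n * (q - v) / q - 1 else n * (q - v) / q := by
  rw [← lk_min (n := n) (v := q - v) (by omega) (by omega), ← lk_neg_cast hvq, lk_min_neg]

/-- LINKS -/
theorem no_links_pr {p k n : ℕ} (hp : p.Prime) (hq : 3 ≤ p ^ k) (hn : 5 ≤ n)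
    (u : (ZMod (p ^ k))ˣ) (h1 : u ≠ 1) (h2 : u ≠ -1) :
    ∃ x : (ZMod (p ^ k))ˣ,
      min (sig n (p ^ k) (x : ZMod (p ^ k))) (sig n (p ^ k) (-(x : ZMod (p ^ k)))) ≠
      min (sig n (p ^ k) ((u * x : (ZMod (p ^ k))ˣ) : ZMod (p ^ k)))
        (sig n (p ^ k) (-((u * x : (ZMod (p ^ k))ˣ) : ZMod (p ^ k)))) := by
  have hk : k ≠ 0 := by rintro rfl; rw [pow_zero] at hq; omega
  have hpq : ∀ x : ℕ, ¬ p ∣ x → x.Coprime (p ^ k) := fun x hx =>
    (Nat.Coprime.pow_right k ((Nat.Prime.coprime_iff_not_dvd hp).mpr hx).symm)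
  have hpk : p ∣ p ^ k := dvd_pow_self p hk
  generalize p ^ k = q at *
  have hz : NeZero q := ⟨by omega⟩
  -- the representative w of u up to sign
  obtain ⟨w, hw2, hwq, hwcop, hw⟩ : ∃ w : ℕ, 2 ≤ w ∧ 2 * w ≤ q ∧ w.Coprime q ∧
      ((u : ZMod q) = (w : ZMod q) ∨ (u : ZMod q) = -(w : ZMod q)) := by
    have hv0 := lk_unit_val_pos (by omega) u
    have hv := ZMod.val_lt (u : ZMod q)
    have hcop := ZMod.val_coe_unit_coprime u
    have hu : (u : ZMod q) = ((u : ZMod q).val : ZMod q) :=
      (ZMod.natCast_zmod_val (u : ZMod q)).symm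
    have hne1 : (u : ZMod q).val ≠ 1 := by
      intro h
      apply h1
      apply Units.ext
      rw [hu, h, Nat.cast_one, Units.val_one]
    have hne2 : (u : ZMod q).val ≠ q - 1 := by
      intro h
      apply h2
      apply Units.ext
      rw [hu, h, ← lk_neg_cast (by omega), Nat.cast_one, Units.val_neg, Units.val_one]
    by_cases hle : 2 * (u : ZMod q).val ≤ q
    · exact ⟨(u : ZMod q).val, by omega, hle, hcop, Or.inl hu⟩
    · refine ⟨q - (u : ZMod q).val, by omega, by omega, ?_, Or.inr ?_⟩
      · rw [Nat.coprime_comm, Nat.coprime_self_sub_right hv.le]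
        exact hcop.symm
      · rw [← lk_neg_cast hv, neg_neg, ← hu]
  -- the value at u x for a natural number x
  have hux : ∀ (x : ℕ) (hx : x.Coprime q),
      min (sig n q ((u * ZMod.unitOfCoprime x hx : (ZMod q)ˣ) : ZMod q))
        (sig n q (-((u * ZMod.unitOfCoprime x hx : (ZMod q)ˣ) : ZMod q))) =
      min (sig n q ((w * x : ℕ) : ZMod q)) (sig n q (-((w * x : ℕ) : ZMod q))) := by
    intro x hx
    rw [Units.val_mul, ZMod.coe_unitOfCoprime]
    rcases hw with h | h
    · rw [h, Nat.cast_mul]
    · rw [h, neg_mul, ← Nat.cast_mul, lk_min_neg]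
  by_cases hqn : q ≤ n
  · -- x = 1
    refine ⟨ZMod.unitOfCoprime 1 (Nat.coprime_one_left q), ?_⟩
    rw [hux, ZMod.coe_unitOfCoprime, mul_one, lk_min (by omega) (by omega),
      lk_min (by omega) hwq]
    have hd : n * 1 / q + 1 ≤ n * w / q := by
      rw [← Nat.add_div_right _ (by omega)]
      apply Nat.div_le_div_right
      nlinarith
    have hd1 : 1 ≤ n * 1 / q := by
      rw [Nat.one_le_div_iff (by omega)]
      omega
    split_ifs <;> omega
  · -- q > n
    have hqn' : ¬ q ∣ n := fun h => hqn (Nat.le_of_dvd (by omega) h)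
    set L := (q - 1) / n with hL
    have hL1 : n * L ≤ q - 1 := Nat.mul_div_le (q - 1) n
    have hL2 : q ≤ n * (L + 1) := by
      have := Nat.lt_mul_div_succ (q - 1) (by omega : 0 < n)
      have h3 : n * ((q - 1) / n + 1) = n * (L + 1) := rfl
      omega
    have hL0 : 1 ≤ L := by
      rw [hL, Nat.one_le_div_iff (by omega)]
      omega
    have h5L : 5 * L ≤ q - 1 := le_trans (Nat.mul_le_mul_right L hn) hL1
    -- small values
    have hsmall : ∀ x : ℕ, 0 < x → x ≤ L →
        min (sig n q (x : ZMod q)) (sig n q (-(x : ZMod q))) = 0 := by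
      intro x hx0 hxL
      rw [lk_min hx0 (by omega), if_neg hqn']
      apply Nat.div_eq_of_lt
      have := Nat.mul_le_mul_left n hxL
      omega
    -- large values
    have hlarge : ∀ y : ℕ, L < y → y + L < q →
        min (sig n q (y : ZMod q)) (sig n q (-(y : ZMod q))) ≠ 0 := by
      intro y hy1 hy2
      have key : ∀ z : ℕ, L < z → n * z / q ≠ 0 := by
        intro z hz1
        have h3 : n * (L + 1) ≤ n * z := Nat.mul_le_mul_left n hz1
        have h4 : 1 ≤ n * z / q := by
          rw [Nat.one_le_div_iff (by omega)]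
          omega
        omega
      by_cases hle : 2 * y ≤ q
      · rw [lk_min (by omega) hle, if_neg hqn']
        exact key y hy1
      · rw [lk_min' (by omega) (by omega), if_neg hqn']
        exact key (q - y) (by omega)
    have main : ∀ x : ℕ, ¬ p ∣ x → 0 < x → x ≤ L → L < w * x → w * x + L < q →
        ∃ x : (ZMod q)ˣ, min (sig n q (x : ZMod q)) (sig n q (-(x : ZMod q))) ≠
          min (sig n q ((u * x : (ZMod q)ˣ) : ZMod q))
            (sig n q (-((u * x : (ZMod q)ˣ) : ZMod q))) := by
      intro x hpx hx0 hxL hx1 hx2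
      refine ⟨ZMod.unitOfCoprime x (hpq x hpx), ?_⟩
      rw [hux, ZMod.coe_unitOfCoprime, hsmall x hx0 hxL]
      exact (hlarge _ hx1 hx2).symm
    by_cases hwL : L < w
    · exact main 1 (fun h => hp.one_lt.ne' (Nat.dvd_one.mp h)) one_pos hL0 (by omega) (by omega)
    · have hx : L < w * (L / w + 1) := Nat.lt_mul_div_succ L (by omega : 0 < w)
      have hx' : w * (L / w) ≤ L := Nat.mul_div_le L w
      have hh : L / w ≤ L / 2 := Nat.div_le_div_left hw2 (by omega)
      have h6 : L ≤ 3 → L / w = 1 := by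
        intro h5
        apply Nat.div_eq_of_lt_le <;> omega
      generalize L / w = t at *
      have hxe : w * (t + 1) = w * t + w := by ring
      have hxe2 : w * (t + 2) = w * t + 2 * w := by ring
      by_cases hpx : p ∣ t + 1
      · refine main (t + 2) ?_ (by omega) ?_ (by omega) (by omega)
        · intro h
          have h3 := (Nat.dvd_add_right hpx).mp (show p ∣ t + 1 + 1 from h)
          exact hp.one_lt.ne' (Nat.dvd_one.mp h3)
        · by_cases h4 : 4 ≤ L
          · omega
          · -- L = 2, 3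
            have hpw : ¬ p ∣ w := by
              intro h
              have h3 := Nat.dvd_gcd h hpk
              rw [hwcop] at h3
              exact hp.one_lt.ne' (Nat.dvd_one.mp h3)
            have h6' := h6 (by omega)
            subst h6'
            have h7 : p = 2 := by
              have := Nat.le_of_dvd (by norm_num) hpx
              have := hp.two_le
              omega
            have h8 : w ≠ 2 := by
              rintro rfl
              exact hpw (by rw [h7])
            omega
      · exact main (t + 1) hpx (by omega) (by omega) hx (by omega)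

/-- NUM3, in the form used: a positive value smaller than the half of the dimension. -/
theorem lk_exists_small {p k n : ℕ} (hp : p.Prime) (hq : 3 ≤ p ^ k) (hn : 5 ≤ n) :
    ∃ u : (ZMod (p ^ k))ˣ, 0 < sig n (p ^ k) (u : ZMod (p ^ k)) ∧
      2 * sig n (p ^ k) (u : ZMod (p ^ k)) < dm n (p ^ k) := by
  have hk : k ≠ 0 := by rintro rfl; rw [pow_zero] at hq; omega
  have hpq : ∀ x : ℕ, ¬ p ∣ x → x.Coprime (p ^ k) := fun x hx =>
    (Nat.Coprime.pow_right k ((Nat.Prime.coprime_iff_not_dvd hp).mpr hx).symm)
  have hpk : p ∣ p ^ k := dvd_pow_self p hk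
  have h8 : p = 2 → 5 ≤ p ^ k → 8 ∣ p ^ k := by
    rintro rfl h5
    have : 3 ≤ k := by
      by_contra hcon
      have : k = 0 ∨ k = 1 ∨ k = 2 := by omega
      rcases this with rfl | rfl | rfl <;> omega
    exact pow_dvd_pow 2 this
  generalize p ^ k = q at *
  have hz : NeZero q := ⟨by omega⟩
  have h1p : ¬ p ∣ 1 := fun h => hp.one_lt.ne' (Nat.dvd_one.mp h)
  have main : ∀ x : ℕ, ¬ p ∣ x → x < q →
      0 < (if q ∣ n then n * x / q - 1 else n * x / q) →
      2 * (if q ∣ n then n * x / q - 1 else n * x / q) < dm n q →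
      ∃ u : (ZMod q)ˣ, 0 < sig n q (u : ZMod q) ∧ 2 * sig n q (u : ZMod q) < dm n q := by
    intro x hx hxq h1 h2
    refine ⟨ZMod.unitOfCoprime x (hpq x hx), ?_, ?_⟩
    · rw [ZMod.coe_unitOfCoprime, lk_sig_cast hxq]
      exact h1
    · rw [ZMod.coe_unitOfCoprime, lk_sig_cast hxq]
      exact h2
  rcases lt_trichotomy q n with hqn | hqn | hqn
  · -- q < n
    have hd : n / q ≤ n / 3 := Nat.div_le_div_left hq (by omega)
    refine main 1 h1p (by omega) ?_ ?_
    · rw [mul_one]
      split_ifs with h
      · obtain ⟨c, rfl⟩ := h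
        have : 2 ≤ c := by
          by_contra hcon
          have : c = 0 ∨ c = 1 := by omega
          rcases this with rfl | rfl <;> omega
        rw [Nat.mul_div_cancel_left _ (by omega)]
        omega
      · exact Nat.div_pos (by omega) (by omega)
    · rw [mul_one]
      unfold dm
      split_ifs with h <;> omega
  · -- q = n
    subst hqn
    have hval : ∀ x : ℕ, q * x / q = x := fun x => Nat.mul_div_cancel_left x (by omega)
    by_cases hp2 : p = 2
    · have h3 : ¬ p ∣ 3 := by rw [hp2]; norm_num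
      have := Nat.le_of_dvd (by omega) (h8 hp2 hn)
      refine main 3 h3 (by omega) ?_ ?_
      · rw [if_pos (dvd_refl q), hval]
        norm_num
      · unfold dm
        rw [if_pos (dvd_refl q), if_pos (dvd_refl q), hval]
        omega
    · have h3 : ¬ p ∣ 2 := fun h =>
        hp2 ((Nat.prime_dvd_prime_iff_eq hp Nat.prime_two).mp h)
      refine main 2 h3 (by omega) ?_ ?_
      · rw [if_pos (dvd_refl q), hval]
        norm_num
      · unfold dm
        rw [if_pos (dvd_refl q), if_pos (dvd_refl q), hval]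
        omega
  · -- n < q
    have hqn' : ¬ q ∣ n := fun h => absurd (Nat.le_of_dvd (by omega) h) (by omega)
    have main2 : ∀ x : ℕ, ¬ p ∣ x → q ≤ n * x → n * x < 2 * q →
        ∃ u : (ZMod q)ˣ, 0 < sig n q (u : ZMod q) ∧ 2 * sig n q (u : ZMod q) < dm n q := by
      intro x hx h1 h2
      have hv : n * x / q = 1 := by
        apply Nat.div_eq_of_lt_le <;> omega
      have hxq : x < q := by
        by_contra hcon
        have h3 : n * q ≤ n * x := Nat.mul_le_mul_left n (by omega)
        have h4 : 5 * q ≤ n * q := Nat.mul_le_mul_right q hn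
        omega
      refine main x hx hxq ?_ ?_
      · rw [if_neg hqn', hv]
        norm_num
      · unfold dm
        rw [if_neg hqn', if_neg hqn', hv]
        omega
    -- t = ceil (q / n)
    obtain ⟨t, ht1, ht2⟩ : ∃ t, q ≤ n * t ∧ n * t < q + n := by
      refine ⟨(q + n - 1) / n, ?_, ?_⟩
      · have := Nat.lt_mul_div_succ (q + n - 1) (by omega : 0 < n)
        rw [mul_add] at this
        omega
      · have := Nat.mul_div_le (q + n - 1) n
        omega
    by_cases htp : p ∣ t
    · have htp1 : ¬ p ∣ t + 1 := fun h => h1p ((Nat.dvd_add_right htp).mp h)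
      have hexp : n * (t + 1) = n * t + n := by ring
      by_cases hlt : n * (t + 1) < 2 * q
      · exact main2 (t + 1) htp1 (by omega) hlt
      · -- t = 2, p = 2
        have ht2' : t ≤ 2 := by
          by_contra hcon
          have h3 : n * 3 ≤ n * t := Nat.mul_le_mul_left n (by omega)
          omega
        have ht0 : t = 2 := by
          have : t ≠ 0 := by rintro rfl; omega
          have : t ≠ 1 := by rintro rfl; exact h1p htp
          omega
        subst ht0
        have hp2 : p = 2 := (Nat.prime_dvd_prime_iff_eq hp Nat.prime_two).mp htp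
        have h8' := h8 hp2 (by omega)
        have h3 : ¬ p ∣ 3 := by rw [hp2]; norm_num
        have hn6 : 6 ≤ n := by
          by_contra hcon
          have : n = 5 := by omega
          subst this
          have := Nat.le_of_dvd (by omega) h8'
          omega
        have hv : n * 3 / q = 2 := by
          apply Nat.div_eq_of_lt_le <;> omega
        refine main 3 h3 (by omega) ?_ ?_
        · rw [if_neg hqn', hv]
          norm_num
        · unfold dm
          rw [if_neg hqn', if_neg hqn', hv]
          omega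
    · exact main2 t htp ht1 (by omega)

/-- NUM3: unequal multiplicities. -/
theorem exists_ne_pr {p k n : ℕ} (hp : p.Prime) (hq : 3 ≤ p ^ k) (hn : 5 ≤ n) :
    ∃ u : (ZMod (p ^ k))ˣ, 0 < sig n (p ^ k) (u : ZMod (p ^ k)) ∧
      0 < sig n (p ^ k) (-(u : ZMod (p ^ k))) ∧
      sig n (p ^ k) (u : ZMod (p ^ k)) ≠ sig n (p ^ k) (-(u : ZMod (p ^ k))) := by
  obtain ⟨u, h1, h2⟩ := lk_exists_small hp hq hn
  have h3 := sig_add_neg_pr hq (by omega : 1 ≤ n) u
  exact ⟨u, h1, by omega, by omega⟩

end Pool.Agent.SJ
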